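import Pool.Agent.Helper14.LE.Stmts2

open MeasureTheory Set Filter Topology InnerProductSpace

noncomputable section

namespace LEP.ABS

variable {H : Type} [NormedAddCommGroup H] [InnerProductSpace ℝ H]
variable {X : Type}

lemma gp_eq (W1 W2 : Set X) (hd : Disjoint W1 W2) (τ : X → ℝ) (h0 : ∀ x, 0 ≤ τ x) (p : ℕ)
    (hp : Odd p) (y : X) (t : ℝ) :
    gp W1 W2 τ p y t = gout W1 W2 τ p y t + W1.indicator (fun _ => (max t 0) ^ p) y
      - W2.indicator (fun _ => (max (-t) 0) ^ p) y := by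
  have hp0 : p ≠ 0 := by
    rintro rfl
    simp at hp
  have ht0 := h0 y
  unfold gp gout
  by_cases h1 : y ∈ W1
  · have h2 : y ∉ W2 := fun h => (Set.disjoint_left.1 hd) h1 h
    simp only [h1, h2, if_true, indicator_of_mem, indicator_of_notMem, not_false_eq_true, sub_zero]
    rcases le_total 0 t with ht | ht
    · have e1 : max t (-τ y) = t := max_eq_left (by linarith)
      have e2 : min t 0 = 0 := min_eq_right ht
      have e3 : max (0 : ℝ) (-τ y) = 0 := max_eq_left (by linarith)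
      rw [e1, e2, e3, max_eq_left ht, zero_pow hp0, zero_add]
    · have e2 : min t 0 = t := min_eq_left ht
      rw [e2, max_eq_right ht, zero_pow hp0, add_zero]
  · by_cases h2 : y ∈ W2
    · simp only [h1, h2, if_true, if_false, indicator_of_mem, indicator_of_notMem,
        not_false_eq_true, add_zero]
      rcases le_total 0 t with ht | ht
      · have e2 : max t 0 = t := max_eq_left ht
        have e3 : max (-t) 0 = 0 := max_eq_right (by linarith)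
        rw [e2, e3, zero_pow hp0, sub_zero]
      · have e1 : min t (τ y) = t := min_eq_left (by linarith)
        have e2 : max t 0 = 0 := max_eq_right ht
        have e3 : min (0 : ℝ) (τ y) = 0 := min_eq_left ht0
        have e4 : max (-t) 0 = -t := max_eq_left (by linarith)
        rw [e1, e2, e3, e4, zero_pow hp0, hp.neg_pow]
        ring
    · simp only [h1, h2, if_false, indicator_of_notMem, not_false_eq_true, add_zero, sub_zero]

/-- numerical estimate for the norm -/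
lemma norm_est (v h : H) (S Es N e e2 s Hb : ℝ) (he : 0 ≤ e)
    (hvh : ‖v - h‖ ≤ e) (hS : ⟪v, h⟫_ℝ = S) (hEs : Es ≤ ‖h‖ ^ 2 / 2 + e * (‖h‖ + 1))
    (hN : S / s - Es ≤ N + e2) (hHb : ‖h‖ ≤ Hb) :
    ‖v‖ ^ 2 / 2 ≤ N + e2 + e * (3 / 2 * Hb + 1) + S * (1 - 1 / s) + e * (Hb + e) / 2 := by
  have hv : ‖v‖ ≤ Hb + e := by
    calc ‖v‖ = ‖(v - h) + h‖ := by rw [sub_add_cancel]
      _ ≤ ‖v - h‖ + ‖h‖ := norm_add_le _ _
      _ ≤ Hb + e := by linarith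
  have h1 : ‖v‖ ^ 2 = ⟪v, h⟫_ℝ + ⟪v, v - h⟫_ℝ := by
    rw [inner_sub_right, real_inner_self_eq_norm_sq]; ring
  have h2 : ‖h‖ ^ 2 = ⟪v, h⟫_ℝ - ⟪v - h, h⟫_ℝ := by
    rw [inner_sub_left, real_inner_self_eq_norm_sq]; ring
  have h3 : ⟪v, v - h⟫_ℝ ≤ e * (Hb + e) := by
    calc ⟪v, v - h⟫_ℝ ≤ ‖v‖ * ‖v - h‖ := real_inner_le_norm _ _
      _ ≤ (Hb + e) * e := by
          apply mul_le_mul hv hvh (norm_nonneg _)
          linarith [norm_nonneg v]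
      _ = e * (Hb + e) := by ring
  have h4 : -⟪v - h, h⟫_ℝ ≤ e * ‖h‖ := by
    have := abs_real_inner_le_norm (v - h) h
    have h5 : ‖v - h‖ * ‖h‖ ≤ e * ‖h‖ := mul_le_mul_of_nonneg_right hvh (norm_nonneg _)
    have h6 := neg_abs_le ⟪v - h, h⟫_ℝ
    linarith
  have h7 : e * ‖h‖ ≤ e * Hb := mul_le_mul_of_nonneg_left hHb he
  have h8 : S * (1 - 1 / s) = S - S / s := by ring
  rw [hS] at h1 h2
  nlinarith

lemma rpow_inv_tendsto (a : ℝ) (ha : 0 < a) :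
    Tendsto (fun p : ℕ => a ^ ((1 : ℝ) / p)) atTop (𝓝 1) := by
  have h1 : Tendsto (fun p : ℕ => (1 : ℝ) / (p : ℝ)) atTop (𝓝 0) :=
    tendsto_one_div_atTop_nhds_zero_nat
  have h2 := (Real.continuousAt_const_rpow (b := 0) ha.ne').tendsto.comp h1
  rw [Real.rpow_zero] at h2
  exact h2

lemma rpow_inv1_tendsto (a : ℝ) (ha : 0 < a) :
    Tendsto (fun p : ℕ => a ^ ((1 : ℝ) / ((p : ℝ) + 1))) atTop (𝓝 1) := by
  have h1 : Tendsto (fun p : ℕ => (1 : ℝ) / ((p : ℝ) + 1)) atTop (𝓝 0) :=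
    tendsto_one_div_add_atTop_nhds_zero_nat
  have h2 := (Real.continuousAt_const_rpow (b := 0) ha.ne').tendsto.comp h1
  rw [Real.rpow_zero] at h2
  exact h2

/-- test point from the identification inequality -/
lemma test_ge (m mlo a t δ : ℝ) (e1 e2 : ℝ) (hmlo : 0 < mlo) (hm : mlo ≤ m) (he1 : 0 ≤ e1)
    (ha : 0 ≤ a) (hδ : 0 < δ) (hlo : 1 - δ / 4 ≤ mlo ^ e1) (hpos : 0 < mlo ^ e1)
    (hhi : a ^ e2 ≤ 1 + δ / 4) (h : m ^ e1 ≤ a ^ e2 * t) : 1 - δ ≤ t := by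
  have h1 : mlo ^ e1 ≤ m ^ e1 := Real.rpow_le_rpow hmlo.le hm he1
  have h2 : 0 ≤ a ^ e2 := Real.rpow_nonneg ha _
  have h3 : 0 < a ^ e2 * t := by linarith
  have h4 : 0 < t := by
    by_contra hneg
    push Not at hneg
    nlinarith
  have h5 : a ^ e2 * t ≤ (1 + δ / 4) * t := mul_le_mul_of_nonneg_right hhi h4.le
  by_contra hcon
  push Not at hcon
  nlinarith

lemma num_last (η Hb : ℝ) (h0 : 0 ≤ η) (h1 : η ≤ 1) :
    η + η * (3 / 2 * Hb + 1) + η * (Hb + η) / 2 ≤ η * (3 / 2 * Hb + 1 + (Hb + 1) / 2 + 1) := by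
  have : η * η ≤ η * 1 := mul_le_mul_of_nonneg_left h1 h0
  nlinarith

lemma ind_smul (W : Set X) (f : X → ℝ) (κ : X → H) (y : X) :
    (W.indicator (fun _ => f y) y) • κ y = W.indicator (fun z => f z • κ z) y := by
  by_cases hy : y ∈ W <;> simp [hy]

lemma ind_fun (W : Set X) (f : X → ℝ) (y : X) :
    (W.indicator (fun _ => f y) y) = W.indicator f y := by
  by_cases hy : y ∈ W <;> simp [hy]

theorem st_ABS (hA1 : ST_A1) (hA2 : ST_A2) (hA3 : ST_A3) (hA4 : ST_A4) (hA5 : ST_A5)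
    (hA6 : ST_A6) : ST_ABS := by
  intro H _ _ _ X _ _ _ lam κ W1 W2 τ D
  obtain ⟨c1, hc1⟩ := D.c1.exists_bound_of_continuousOn D.k1
  obtain ⟨c2, hc2⟩ := D.c2.exists_bound_of_continuousOn D.k2
  obtain ⟨h1, h11, h12⟩ := D.h1
  obtain ⟨h2, h21, h22⟩ := D.h2
  obtain ⟨x1, hx1⟩ := D.n1
  obtain ⟨x2, hx2⟩ := D.n2
  set Ck : ℝ := max 1 (max c1 c2) with hCk
  have hCk0 : 0 < Ck := lt_of_lt_of_le one_pos (le_max_left _ _)
  have hC1 : ∀ x ∈ W1, ‖κ x‖ ≤ Ck := fun x hx =>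
    (hc1 x hx).trans ((le_max_left _ _).trans (le_max_right _ _))
  have hC2 : ∀ x ∈ W2, ‖κ x‖ ≤ Ck := fun x hx =>
    (hc2 x hx).trans ((le_max_right _ _).trans (le_max_right _ _))
  have hfeas : (feas κ W1 W2).Nonempty := by
    refine ⟨h1 - h2, ⟨x1, hx1, ?_⟩, ⟨x2, hx2, ?_⟩⟩
    · rw [inner_sub_right, h11 x1 hx1, h21 x1 hx1]; norm_num
    · rw [inner_sub_right, h12 x2 hx2, h22 x2 hx2]; norm_num
  obtain ⟨⟨v0, hv0⟩, hA5'⟩ := hA5 H X κ W1 W2 D.c1 D.c2 D.k1 D.k2 hfeas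
  obtain ⟨mlo, mhi, η0, δ0, hmlo, hmm, hη0, hδ0, hA3'⟩ :=
    hA3 (‖v0‖ ^ 2 / 2 + 1) Ck (max ‖h1‖ ‖h2‖ + 1) (by positivity) hCk0 (by positivity)
  have hmhi : 0 < mhi := hmlo.trans hmm
  refine ⟨1 + 4 * mhi, fun ε hε => ?_⟩
  obtain ⟨δ, hδ, hA5''⟩ := hA5' v0 hv0 ε hε
  set Hb : ℝ := 4 * Ck * mhi with hHb
  have hHb0 : 0 < Hb := by positivity
  set Sb : ℝ := 2 * (max 1 mhi) ^ (2 : ℝ) with hSb
  have hSb0 : 0 < Sb := by positivity
  set A : ℝ := 3 / 2 * Hb + 1 + (Hb + 1) / 2 + 1 with hA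
  have hA0 : 0 < A := by positivity
  set η : ℝ := min (min η0 1) (δ / (2 * A)) with hη
  have hηpos : 0 < η := by
    rw [hη]
    exact lt_min (lt_min hη0 one_pos) (by positivity)
  have hη1 : η ≤ η0 := (min_le_left _ _).trans (min_le_left _ _)
  have hη2 : η ≤ 1 := (min_le_left _ _).trans (min_le_right _ _)
  have hη3 : η * A ≤ δ / 2 := by
    have : η ≤ δ / (2 * A) := min_le_right _ _
    calc η * A ≤ δ / (2 * A) * A := mul_le_mul_of_nonneg_right this hA0.le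
      _ = δ / 2 := by field_simp
  -- eventual facts
  have E1 := hA1 H X lam κ W1 Ck D.m1 D.c1 ⟨x1, hx1⟩ D.k1 D.f1 hC1
  have E2 := hA1 H X lam κ W2 Ck D.m2 D.c2 ⟨x2, hx2⟩ D.k2 D.f2 hC2
  have E3 := hA2 H X lam κ W1 W2 τ D.sm D.m1 D.m2 D.tm D.t0 D.t1 D.ti η hηpos
  have E4 := hA4 H X lam κ W1 W2 τ D v0 hv0 mhi η hmhi hηpos
  set a1 : ℝ := lam.real W1 with ha1
  set a2 : ℝ := lam.real W2 with ha2
  have hlamW1 : 0 < lam W1 := by
    have := D.p1 univ isOpen_univ (by rw [univ_inter]; exact ⟨x1, hx1⟩)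
    rwa [univ_inter] at this
  have hlamW2 : 0 < lam W2 := by
    have := D.p2 univ isOpen_univ (by rw [univ_inter]; exact ⟨x2, hx2⟩)
    rwa [univ_inter] at this
  have ha1p : 0 < a1 := by
    rw [ha1, Measure.real]
    exact ENNReal.toReal_pos hlamW1.ne' D.f1.ne
  have ha2p : 0 < a2 := by
    rw [ha2, Measure.real]
    exact ENNReal.toReal_pos hlamW2.ne' D.f2.ne
  have hδ4 : (0 : ℝ) < δ / 4 := by positivity
  have hmin : (0 : ℝ) < min (δ / 4) 1 := lt_min hδ4 one_pos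
  have E5 : ∀ᶠ p : ℕ in atTop, mlo ^ ((1 : ℝ) / p) ∈ Ioi (1 - δ / 4) :=
    (rpow_inv_tendsto mlo hmlo).eventually (Ioi_mem_nhds (by linarith))
  have E6 : ∀ᶠ p : ℕ in atTop, a1 ^ ((1 : ℝ) / ((p : ℝ) + 1)) ∈ Iio (1 + min (δ / 4) 1) :=
    (rpow_inv1_tendsto a1 ha1p).eventually (Iio_mem_nhds (by linarith))
  have E7 : ∀ᶠ p : ℕ in atTop, a2 ^ ((1 : ℝ) / ((p : ℝ) + 1)) ∈ Iio (1 + min (δ / 4) 1) :=
    (rpow_inv1_tendsto a2 ha2p).eventually (Iio_mem_nhds (by linarith))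
  have hinv : Tendsto (fun p : ℕ => (1 : ℝ) / (p : ℝ)) atTop (𝓝 0) :=
    tendsto_one_div_atTop_nhds_zero_nat
  have E8 : ∀ᶠ p : ℕ in atTop, (1 : ℝ) / (p : ℝ) ∈ Iio (min (min δ0 1) (δ / (2 * Sb))) :=
    hinv.eventually (Iio_mem_nhds (by positivity))
  filter_upwards [E1, E2, E3, E4, E5, E6, E7, E8, eventually_ge_atTop 1] with p E1 E2 E3 E4 E5 E6
    E7 E8 hp1 hodd
  obtain ⟨conv1, comp1, zero1, bd1, orth1, pos1, ratio1⟩ := E1
  obtain ⟨conv2, comp2, zero2, bd2, orth2, pos2, ratio2⟩ := E2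
  obtain ⟨gint, gint2, V, Es, hVB, hVh, hVc, hVmono, hVsub, hEs⟩ := E3 hodd
  have hp0 : (0 : ℝ) < p := by exact_mod_cast hp1
  have hip : (0 : ℝ) < 1 / (p : ℝ) := by positivity
  have hipd : 1 / (p : ℝ) < δ0 := lt_of_lt_of_le E8 ((min_le_left _ _).trans (min_le_left _ _))
  have hip1 : 1 / (p : ℝ) < 1 := lt_of_lt_of_le E8 ((min_le_left _ _).trans (min_le_right _ _))
  have hipS : 1 / (p : ℝ) < δ / (2 * Sb) := lt_of_lt_of_le E8 (min_le_right _ _)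
  set s : ℝ := 1 + 1 / (p : ℝ) with hs
  have hs1 : 1 < s := by linarith
  have hs2 : s < 1 + δ0 := by linarith
  have hs3 : s - 1 = 1 / (p : ℝ) := by rw [hs]; ring
  have hcross : ∀ k1 ∈ Kf lam κ W1 p, ∀ k2 ∈ Kf lam κ W2 p, 0 ≤ ⟪k1, k2⟫_ℝ := by
    intro k1 hk1 k2 hk2
    apply pos1 k1 hk1
    intro x hx
    rw [real_inner_comm]
    apply pos2 k2 hk2
    intro y hy
    rw [real_inner_comm]
    exact D.cross x hx y hy
  obtain ⟨k1t, hk1t, k2t, hk2t, hkt⟩ := E4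
  obtain ⟨k1, hk1, k2, hk2, m1, hm1, m2, hm2, hmax1, hmax2, hid1, hid2, hval⟩ :=
    hA3' H (Kf lam κ W1 p) (Kf lam κ W2 p) V Es h1 h2 s hs1 hs2 conv1 conv2 comp1 comp2
      ⟨0, zero1⟩ ⟨0, zero2⟩ bd1 bd2 hcross
      ((le_max_left _ _).trans (by linarith)) ((le_max_right _ _).trans (by linarith))
      (fun k hk => ⟨ratio1 k hk h1 h11, orth1 k hk h2 h21⟩)
      (fun k hk => ⟨ratio2 k hk h2 h22, orth2 k hk h1 h12⟩)
      hVc (fun h => (hVh h).trans hη1) hVmono hVsub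
      (fun h => ⟨(hEs h).1, (hEs h).2.trans (by
        have : η * (‖h‖ + 1) ≤ η0 * (‖h‖ + 1) :=
          mul_le_mul_of_nonneg_right hη1 (by positivity)
        linarith)⟩)
      ⟨k1t, hk1t, k2t, hk2t, fun m1 hm1 m2 hm2 =>
        (hkt m1 ⟨hmlo.le.trans hm1.1, hm1.2⟩ m2 ⟨hmlo.le.trans hm2.1, hm2.2⟩).trans
          (by linarith)⟩
  set h : H := m1 • k1 - m2 • k2 with hh
  set v : H := V h with hv
  have hm1p : 0 < m1 := hmlo.trans hm1.1
  have hm2p : 0 < m2 := hmlo.trans hm2.1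
  rw [hs3] at hid1 hid2
  obtain ⟨i1, e1, ⟨y1, hy1, hy1'⟩, j1, l1⟩ := hA6 H X lam κ W1 p v k1 m1 D.m1 D.c1 D.k1 D.f1 hp1
    hk1 hmax1 hm1p hid1
  have hmax2' : ∀ k' ∈ Kf lam κ W2 p, ⟪-v, k'⟫_ℝ ≤ ⟪-v, k2⟫_ℝ := by
    intro k' hk'
    rw [inner_neg_left, inner_neg_left]
    exact neg_le_neg (hmax2 k' hk')
  obtain ⟨i2, e2, ⟨y2, hy2, hy2'⟩, j2, l2⟩ := hA6 H X lam κ W2 p (-v) k2 m2 D.m2 D.c2 D.k2 D.f2 hp1
    hk2 hmax2' hm2p (by rw [inner_neg_left]; exact hid2)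
  -- the pointwise identity
  have key : ∀ y, gp W1 W2 τ p y ⟪κ y, v⟫_ℝ • κ y = gout W1 W2 τ p y ⟪κ y, v⟫_ℝ • κ y
      + W1.indicator (fun y => (max ⟪κ y, v⟫_ℝ 0) ^ p • κ y) y
      - W2.indicator (fun y => (max ⟪κ y, -v⟫_ℝ 0) ^ p • κ y) y := by
    intro y
    rw [gp_eq W1 W2 D.disj τ D.t0 p hodd y, sub_smul, add_smul,
      ind_smul W1 (fun y => (max ⟪κ y, v⟫_ℝ 0) ^ p) κ y,
      ← inner_neg_right, ind_smul W2 (fun y => (max ⟪κ y, -v⟫_ℝ 0) ^ p) κ y]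
  have key2 : ∀ y, gp W1 W2 τ p y ⟪κ y, v⟫_ℝ = gout W1 W2 τ p y ⟪κ y, v⟫_ℝ
      + W1.indicator (fun y => (max ⟪κ y, v⟫_ℝ 0) ^ p) y
      - W2.indicator (fun y => (max ⟪κ y, -v⟫_ℝ 0) ^ p) y := by
    intro y
    rw [gp_eq W1 W2 D.disj τ D.t0 p hodd y,
      ind_fun W1 (fun y => (max ⟪κ y, v⟫_ℝ 0) ^ p) y,
      ← inner_neg_right, ind_fun W2 (fun y => (max ⟪κ y, -v⟫_ℝ 0) ^ p) y]
  have I1 : Integrable (W1.indicator (fun y => (max ⟪κ y, v⟫_ℝ 0) ^ p • κ y)) lam :=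
    i1.integrable_indicator D.m1
  have I2 : Integrable (W2.indicator (fun y => (max ⟪κ y, -v⟫_ℝ 0) ^ p • κ y)) lam :=
    i2.integrable_indicator D.m2
  have J1 : Integrable (W1.indicator (fun y => (max ⟪κ y, v⟫_ℝ 0) ^ p)) lam :=
    j1.integrable_indicator D.m1
  have J2 : Integrable (W2.indicator (fun y => (max ⟪κ y, -v⟫_ℝ 0) ^ p)) lam :=
    j2.integrable_indicator D.m2
  have gi := gint v
  obtain ⟨gi2, gi3⟩ := gint2 v
  refine ⟨v, ?_, ?_, ?_, ?_, ?_⟩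
  · simp_rw [key]
    exact (gi.add I1).sub I2
  · have hadd : Integrable (fun y => gout W1 W2 τ p y ⟪κ y, v⟫_ℝ • κ y
        + W1.indicator (fun y => (max ⟪κ y, v⟫_ℝ 0) ^ p • κ y) y) lam := gi.add I1
    simp_rw [key]
    rw [integral_sub hadd I2, integral_add gi I1, integral_indicator D.m1,
      integral_indicator D.m2, ← e1, ← e2]
    have := hVB h
    unfold Bf at this
    rw [← hv] at this
    rw [add_sub_assoc, ← hh, ← this, add_sub_cancel]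
  · have hup1 : a1 ^ ((1 : ℝ) / ((p : ℝ) + 1)) ≤ 1 + δ / 4 :=
      (le_of_lt E6).trans (by linarith [min_le_left (δ / 4) (1 : ℝ)])
    have hup2 : a2 ^ ((1 : ℝ) / ((p : ℝ) + 1)) ≤ 1 + δ / 4 :=
      (le_of_lt E7).trans (by linarith [min_le_left (δ / 4) (1 : ℝ)])
    have hlo : 1 - δ / 4 ≤ mlo ^ ((1 : ℝ) / p) := le_of_lt E5
    have hposlo : 0 < mlo ^ ((1 : ℝ) / p) := Real.rpow_pos_of_pos hmlo _
    apply hA5'' v
    · exact ⟨y1, hy1, test_ge m1 mlo a1 _ δ _ _ hmlo hm1.1.le hip.le ha1p.le hδ hlo hposlo hup1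
        hy1'⟩
    · refine ⟨y2, hy2, ?_⟩
      have := test_ge m2 mlo a2 _ δ _ _ hmlo hm2.1.le hip.le ha2p.le hδ hlo hposlo hup2 hy2'
      rw [inner_neg_right] at this
      linarith
    · have hS : ⟪v, h⟫_ℝ = m1 ^ s + m2 ^ s := by
        rw [hh, inner_sub_right, real_inner_smul_right, real_inner_smul_right, hid1]
        have e3 : ⟪v, k2⟫_ℝ = - m2 ^ ((1 : ℝ) / p) := by
          have : -⟪v, k2⟫_ℝ = m2 ^ ((1 : ℝ) / p) := hid2
          linarith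
        rw [e3, hs, Real.rpow_add hm1p, Real.rpow_add hm2p, Real.rpow_one, Real.rpow_one]
        ring
      have hHbd : ‖h‖ ≤ Hb := by
        calc ‖h‖ ≤ ‖m1 • k1‖ + ‖m2 • k2‖ := norm_sub_le _ _
          _ = m1 * ‖k1‖ + m2 * ‖k2‖ := by
              rw [norm_smul, norm_smul, Real.norm_of_nonneg hm1p.le, Real.norm_of_nonneg hm2p.le]
          _ ≤ mhi * (2 * Ck) + mhi * (2 * Ck) := by
              apply add_le_add
              · exact mul_le_mul hm1.2.le (bd1 k1 hk1) (norm_nonneg _) hmhi.le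
              · exact mul_le_mul hm2.2.le (bd2 k2 hk2) (norm_nonneg _) hmhi.le
          _ = Hb := by rw [hHb]; ring
      have hvalc := hval (‖v0‖ ^ 2 / 2 + η) ⟨k1t, hk1t, k2t, hk2t, fun m1 hm1 m2 hm2 =>
        hkt m1 ⟨hmlo.le.trans hm1.1, hm1.2⟩ m2 ⟨hmlo.le.trans hm2.1, hm2.2⟩⟩
      have hest := norm_est v h (m1 ^ s + m2 ^ s) (Es h) (‖v0‖ ^ 2 / 2) η η s Hb hηpos.le
        (hVh h) hS (hEs h).2 hvalc hHbd
      have hpw : ∀ m : ℝ, 0 < m → m < mhi → m ^ s ≤ (max 1 mhi) ^ (2 : ℝ) := by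
        intro m hm hm'
        calc m ^ s ≤ (max 1 mhi) ^ s :=
              Real.rpow_le_rpow hm.le (hm'.le.trans (le_max_right _ _)) (by linarith)
          _ ≤ (max 1 mhi) ^ (2 : ℝ) :=
              Real.rpow_le_rpow_of_exponent_le (le_max_left _ _) (by linarith)
      have hSbd : m1 ^ s + m2 ^ s ≤ Sb := by
        rw [hSb]
        have := hpw m1 hm1p hm1.2
        have := hpw m2 hm2p hm2.2
        linarith
      have hS0 : 0 ≤ m1 ^ s + m2 ^ s := by positivity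
      have h1s : 1 - 1 / s ≤ 1 / (p : ℝ) := by
        have hs0 : 0 < s := by linarith
        have : 1 - 1 / s = (s - 1) / s := by field_simp
        rw [this, hs3]
        rw [div_le_iff₀ hs0]
        exact le_mul_of_one_le_right hip.le hs1.le
      have h1s0 : 0 ≤ 1 / (p : ℝ) := hip.le
      have hterm : (m1 ^ s + m2 ^ s) * (1 - 1 / s) ≤ δ / 2 := by
        calc (m1 ^ s + m2 ^ s) * (1 - 1 / s) ≤ (m1 ^ s + m2 ^ s) * (1 / (p : ℝ)) :=
              mul_le_mul_of_nonneg_left h1s hS0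
          _ ≤ Sb * (1 / (p : ℝ)) := mul_le_mul_of_nonneg_right hSbd h1s0
          _ ≤ Sb * (δ / (2 * Sb)) := mul_le_mul_of_nonneg_left hipS.le hSb0.le
          _ = δ / 2 := by field_simp
      have hlast : η + η * (3 / 2 * Hb + 1) + η * (Hb + η) / 2 ≤ η * A := by
        rw [hA]
        exact num_last η Hb hηpos.le hη2
      clear hval hEs hVsub hVmono hVh hVB hmax1 hmax2 hmax2' hkt key key2
      linarith only [hest, hterm, hlast, hη3]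
  · simp_rw [key2]
    exact (gi2.add J1).sub J2
  · have hbound : ∀ y, |gp W1 W2 τ p y ⟪κ y, v⟫_ℝ| ≤ |gout W1 W2 τ p y ⟪κ y, v⟫_ℝ|
        + W1.indicator (fun y => (max ⟪κ y, v⟫_ℝ 0) ^ p) y
        + W2.indicator (fun y => (max ⟪κ y, -v⟫_ℝ 0) ^ p) y := by
      intro y
      rw [key2 y]
      have n1 : 0 ≤ W1.indicator (fun y => (max ⟪κ y, v⟫_ℝ 0) ^ p) y :=
        indicator_nonneg (fun z _ => pow_nonneg (le_max_right _ _) _) y
      have n2 : 0 ≤ W2.indicator (fun y => (max ⟪κ y, -v⟫_ℝ 0) ^ p) y :=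
        indicator_nonneg (fun z _ => pow_nonneg (le_max_right _ _) _) y
      have := abs_le.1 (le_refl |gout W1 W2 τ p y ⟪κ y, v⟫_ℝ|)
      rw [abs_le]
      constructor <;> linarith [this.1, this.2]
    have hint : Integrable (fun y => gp W1 W2 τ p y ⟪κ y, v⟫_ℝ) lam := by
      simp_rw [key2]
      exact (gi2.add J1).sub J2
    have hle : ∫ y, |gp W1 W2 τ p y ⟪κ y, v⟫_ℝ| ∂lam ≤
        ∫ y, (|gout W1 W2 τ p y ⟪κ y, v⟫_ℝ|
        + W1.indicator (fun y => (max ⟪κ y, v⟫_ℝ 0) ^ p) y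
        + W2.indicator (fun y => (max ⟪κ y, -v⟫_ℝ 0) ^ p) y) ∂lam :=
      integral_mono hint.abs ((gi2.abs.add J1).add J2) hbound
    have hsplit : ∫ y, (|gout W1 W2 τ p y ⟪κ y, v⟫_ℝ|
        + W1.indicator (fun y => (max ⟪κ y, v⟫_ℝ 0) ^ p) y
        + W2.indicator (fun y => (max ⟪κ y, -v⟫_ℝ 0) ^ p) y) ∂lam
        = ∫ y, |gout W1 W2 τ p y ⟪κ y, v⟫_ℝ| ∂lam
          + ∫ y in W1, (max ⟪κ y, v⟫_ℝ 0) ^ p ∂lam
          + ∫ y in W2, (max ⟪κ y, -v⟫_ℝ 0) ^ p ∂lam := by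
      have hadd : Integrable (fun y => |gout W1 W2 τ p y ⟪κ y, v⟫_ℝ|
        + W1.indicator (fun y => (max ⟪κ y, v⟫_ℝ 0) ^ p) y) lam := gi2.abs.add J1
      rw [integral_add hadd J2, integral_add gi2.abs J1, integral_indicator D.m1,
        integral_indicator D.m2]
    have b1 : a1 ^ ((1 : ℝ) / ((p : ℝ) + 1)) ≤ 2 :=
      (le_of_lt E6).trans (by linarith [min_le_right (δ / 4) (1 : ℝ)])
    have b2 : a2 ^ ((1 : ℝ) / ((p : ℝ) + 1)) ≤ 2 :=
      (le_of_lt E7).trans (by linarith [min_le_right (δ / 4) (1 : ℝ)])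
    have b3 : a1 ^ ((1 : ℝ) / ((p : ℝ) + 1)) * m1 ≤ 2 * mhi :=
      mul_le_mul b1 hm1.2.le hm1p.le (by norm_num)
    have b4 : a2 ^ ((1 : ℝ) / ((p : ℝ) + 1)) * m2 ≤ 2 * mhi :=
      mul_le_mul b2 hm2.2.le hm2p.le (by norm_num)
    rw [hsplit] at hle
    linarith

end LEP.ABS

end
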